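import Pool.Agent.Helper97.Fuchs.Base

/-!
# FU-M3c: a non cocompact group of finite covolume contains a parabolic element
-/

namespace Pool.Agent.Helper97.Fuchs

open MeasureTheory Matrix UpperHalfPlane Filter Topology
open scoped MatrixGroups ENNReal BigOperators

noncomputable section

/-! ### the Hilbert-Schmidt norm of a matrix -/

def pbHs (M : Matrix (Fin 2) (Fin 2) ℝ) : ℝ := √(M 0 0 ^ 2 + M 0 1 ^ 2 + M 1 0 ^ 2 + M 1 1 ^ 2)

lemma pbHs_nonneg (M : Matrix (Fin 2) (Fin 2) ℝ) : 0 ≤ pbHs M := Real.sqrt_nonneg _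

lemma pbHs_sq (M : Matrix (Fin 2) (Fin 2) ℝ) :
    pbHs M ^ 2 = M 0 0 ^ 2 + M 0 1 ^ 2 + M 1 0 ^ 2 + M 1 1 ^ 2 := Real.sq_sqrt (by positivity)

lemma pbHs_mul_le (M N : Matrix (Fin 2) (Fin 2) ℝ) : pbHs (M * N) ≤ pbHs M * pbHs N := by
  have hh : pbHs (M * N) ^ 2 ≤ (pbHs M * pbHs N) ^ 2 := by
    rw [mul_pow, pbHs_sq, pbHs_sq, pbHs_sq]
    simp only [Matrix.mul_apply, Fin.sum_univ_two]
    nlinarith [sq_nonneg (M 0 0 * N 1 0 - M 0 1 * N 0 0), sq_nonneg (M 0 0 * N 1 1 - M 0 1 * N 0 1),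
      sq_nonneg (M 1 0 * N 1 0 - M 1 1 * N 0 0), sq_nonneg (M 1 0 * N 1 1 - M 1 1 * N 0 1)]
  exact le_of_sq_le_sq' hh (mul_nonneg (pbHs_nonneg _) (pbHs_nonneg _))

lemma pb_nrm_eq (g : SL(2, ℝ)) : nrm g = pbHs (g : Matrix (Fin 2) (Fin 2) ℝ) := rfl

lemma pb_d1_eq (g : SL(2, ℝ)) : d1 g = pbHs ((g : Matrix (Fin 2) (Fin 2) ℝ) - 1) := by
  unfold d1 pbHs
  simp

lemma pb_d1_nonneg (g : SL(2, ℝ)) : 0 ≤ d1 g := Real.sqrt_nonneg _

lemma pb_d1_sq (g : SL(2, ℝ)) :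
    d1 g ^ 2 = (g 0 0 - 1) ^ 2 + g 0 1 ^ 2 + g 1 0 ^ 2 + (g 1 1 - 1) ^ 2 :=
  Real.sq_sqrt (by positivity)

/-- conjugation -/
lemma pb_d1_conj (c m : SL(2, ℝ)) : d1 (c⁻¹ * m * c) ≤ nrm c ^ 2 * d1 m := by
  have h1 : ((c⁻¹ * m * c : SL(2, ℝ)) : Matrix (Fin 2) (Fin 2) ℝ) - 1 =
      ((c⁻¹ : SL(2, ℝ)) : Matrix (Fin 2) (Fin 2) ℝ) * ((m : Matrix (Fin 2) (Fin 2) ℝ) - 1) *
        (c : Matrix (Fin 2) (Fin 2) ℝ) := by
    rw [mul_sub, sub_mul, mul_one, ← Matrix.SpecialLinearGroup.coe_mul,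
      ← Matrix.SpecialLinearGroup.coe_mul, ← Matrix.SpecialLinearGroup.coe_mul, inv_mul_cancel,
      Matrix.SpecialLinearGroup.coe_one]
  rw [pb_d1_eq, h1, pb_d1_eq]
  refine (pbHs_mul_le _ _).trans ?_
  refine (mul_le_mul_of_nonneg_right (pbHs_mul_le _ _) (pbHs_nonneg _)).trans (le_of_eq ?_)
  rw [← pb_nrm_eq, ← pb_nrm_eq, nrm_inv]
  ring

lemma pb_entry_le (g : SL(2, ℝ)) (i j : Fin 2) : |g i j - (1 : SL(2, ℝ)) i j| ≤ d1 g := by
  have h0 := pb_d1_nonneg g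
  have h := pb_d1_sq g
  apply abs_le_of_sq_le_sq _ h0
  fin_cases i <;> fin_cases j <;> simp [Matrix.SpecialLinearGroup.coe_one] <;>
    nlinarith [sq_nonneg (g 0 0 - 1), sq_nonneg (g 0 1), sq_nonneg (g 1 0), sq_nonneg (g 1 1 - 1)]

lemma pb_nrm_le (g : SL(2, ℝ)) : nrm g ≤ 2 + d1 g := by
  have h0 := pb_d1_nonneg g
  have h := pb_d1_sq g
  have h1 := nrm_sq g
  have e1 : |g 0 0 - 1| ≤ d1 g := by simpa using pb_entry_le g 0 0
  have e2 : |g 1 1 - 1| ≤ d1 g := by simpa using pb_entry_le g 1 1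
  apply le_of_sq_le_sq' _ (by linarith)
  rw [h1]
  nlinarith [(abs_le.mp e1).2, (abs_le.mp e2).2]

lemma pb_trace_conj (c m : SL(2, ℝ)) :
    (c⁻¹ * m * c) 0 0 + (c⁻¹ * m * c) 1 1 = m 0 0 + m 1 1 := by
  have h : Matrix.trace ((c⁻¹ * m * c : SL(2, ℝ)) : Matrix (Fin 2) (Fin 2) ℝ) =
      Matrix.trace (m : Matrix (Fin 2) (Fin 2) ℝ) := by
    rw [Matrix.SpecialLinearGroup.coe_mul, Matrix.trace_mul_comm,
      ← Matrix.SpecialLinearGroup.coe_mul]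
    have h1 : c * (c⁻¹ * m) = m := by rw [← mul_assoc, mul_inv_cancel, one_mul]
    rw [h1]
  rwa [Matrix.trace_fin_two, Matrix.trace_fin_two] at h

lemma pb_trace_le (g : SL(2, ℝ)) : |g 0 0 + g 1 1 - 2| ≤ 2 * d1 g := by
  have e1 : |g 0 0 - 1| ≤ d1 g := by simpa using pb_entry_le g 0 0
  have e2 : |g 1 1 - 1| ≤ d1 g := by simpa using pb_entry_le g 1 1
  rw [abs_le] at e1 e2 ⊢
  constructor <;> linarith [e1.1, e1.2, e2.1, e2.2]

/-- the norm and the displacement of `I` -/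
lemma pb_nrm_sq_cosh (g : SL(2, ℝ)) : nrm g ^ 2 = 2 * Real.cosh (dist I (g • I)) := by
  have hd : 0 < g 1 0 ^ 2 + g 1 1 ^ 2 := by
    have hne : g 1 0 ^ 2 + g 1 1 ^ 2 ≠ 0 := by
      intro h0
      have h1 : g 1 0 = 0 := by nlinarith [sq_nonneg (g 1 0), sq_nonneg (g 1 1)]
      have h2 : g 1 1 = 0 := by nlinarith [sq_nonneg (g 1 0), sq_nonneg (g 1 1)]
      have := det_eq g
      rw [h1, h2] at this
      simp at this
    positivity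
  rw [cosh_dist', re_smul_I, im_smul_I, nrm_sq, I_re, I_im, rp]
  have h := det_eq g
  field_simp
  linear_combination ((g 0 0 * g 1 1 - g 0 1 * g 1 0) + 1) * h

/-! ### two dimensional algebra -/

lemma pb_comm_entries (g b : SL(2, ℝ)) (h : g * b = b * g) :
    g 0 1 * b 1 0 = b 0 1 * g 1 0 ∧
      b 0 1 * (g 0 0 - g 1 1) = g 0 1 * (b 0 0 - b 1 1) ∧
      b 1 0 * (g 0 0 - g 1 1) = g 1 0 * (b 0 0 - b 1 1) := by
  have e : ∀ i j : Fin 2, (g * b) i j = (b * g) i j := fun i j => by rw [h]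
  have e00 := e 0 0
  have e01 := e 0 1
  have e10 := e 1 0
  simp only [mul_apply'] at e00 e01 e10
  refine ⟨by linarith, by linarith, by linarith⟩

lemma pb_sq_entries (g b : SL(2, ℝ)) (h : g * b = b * g) :
    (g 0 0 - g 1 1) ^ 2 * ((b 0 0 + b 1 1) ^ 2 - 4) =
        (b 0 0 - b 1 1) ^ 2 * ((g 0 0 + g 1 1) ^ 2 - 4) ∧
      g 0 1 ^ 2 * ((b 0 0 + b 1 1) ^ 2 - 4) = b 0 1 ^ 2 * ((g 0 0 + g 1 1) ^ 2 - 4) ∧
      g 1 0 ^ 2 * ((b 0 0 + b 1 1) ^ 2 - 4) = b 1 0 ^ 2 * ((g 0 0 + g 1 1) ^ 2 - 4) := by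
  obtain ⟨h1, h2, h3⟩ := pb_comm_entries g b h
  have hg := det_eq g
  have hb := det_eq b
  have eb : (b 0 0 + b 1 1) ^ 2 - 4 = (b 0 0 - b 1 1) ^ 2 + 4 * b 0 1 * b 1 0 := by
    linear_combination (4 : ℝ) * hb
  have eg : (g 0 0 + g 1 1) ^ 2 - 4 = (g 0 0 - g 1 1) ^ 2 + 4 * g 0 1 * g 1 0 := by
    linear_combination (4 : ℝ) * hg
  rw [eb, eg]
  refine ⟨?_, ?_, ?_⟩
  · linear_combination 4 * (b 1 0 * (g 0 0 - g 1 1)) * h2 +
      4 * (g 0 1 * (b 0 0 - b 1 1)) * h3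
  · linear_combination -(g 0 1 * (b 0 0 - b 1 1) + b 0 1 * (g 0 0 - g 1 1)) * h2 +
      4 * (b 0 1 * g 0 1) * h1
  · linear_combination -(g 1 0 * (b 0 0 - b 1 1) + b 1 0 * (g 0 0 - g 1 1)) * h3 -
      4 * (b 1 0 * g 1 0) * h1

lemma pb_bounded (b : SL(2, ℝ)) (hb : (b 0 0 + b 1 1) ^ 2 ≠ 4) :
    ∃ N : ℝ, ∀ g : SL(2, ℝ), g * b = b * g → |g 0 0 + g 1 1| ≤ 3 → nrm g ≤ N := by
  set Δ : ℝ := (b 0 0 + b 1 1) ^ 2 - 4 with hΔ
  have hΔ0 : Δ ≠ 0 := sub_ne_zero.mpr hb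
  set M : ℝ := 5 * ((b 0 0 - b 1 1) ^ 2 + b 0 1 ^ 2 + b 1 0 ^ 2) / |Δ| with hM
  refine ⟨√(9 / 2 + 3 * M), fun g hg htr => ?_⟩
  obtain ⟨h1, h2, h3⟩ := pb_sq_entries g b hg
  have hτ : |(g 0 0 + g 1 1) ^ 2 - 4| ≤ 5 := by
    have := sq_abs (g 0 0 + g 1 1)
    have h0 := abs_nonneg (g 0 0 + g 1 1)
    rw [abs_le]
    constructor <;> nlinarith
  have key : ∀ u v : ℝ, u ^ 2 * Δ = v ^ 2 * ((g 0 0 + g 1 1) ^ 2 - 4) →
      v ^ 2 ≤ (b 0 0 - b 1 1) ^ 2 + b 0 1 ^ 2 + b 1 0 ^ 2 → u ^ 2 ≤ M := by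
    intro u v huv hv
    have hpos : 0 < |Δ| := abs_pos.mpr hΔ0
    rw [hM, le_div_iff₀ hpos]
    have h4 : u ^ 2 * |Δ| = v ^ 2 * |(g 0 0 + g 1 1) ^ 2 - 4| := by
      have := congrArg abs huv
      rwa [abs_mul, abs_mul, abs_of_nonneg (sq_nonneg u), abs_of_nonneg (sq_nonneg v)] at this
    rw [h4]
    have h5 : 0 ≤ v ^ 2 := sq_nonneg v
    have h6 : v ^ 2 * |(g 0 0 + g 1 1) ^ 2 - 4| ≤ v ^ 2 * 5 := mul_le_mul_of_nonneg_left hτ h5
    linarith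
  have k1 := key _ _ h1 (by nlinarith [sq_nonneg (b 0 1), sq_nonneg (b 1 0)])
  have k2 := key _ _ h2 (by nlinarith [sq_nonneg (b 0 0 - b 1 1), sq_nonneg (b 1 0)])
  have k3 := key _ _ h3 (by nlinarith [sq_nonneg (b 0 0 - b 1 1), sq_nonneg (b 0 1)])
  unfold nrm
  apply Real.sqrt_le_sqrt
  have h7 : (g 0 0 + g 1 1) ^ 2 ≤ 9 := by
    have := (abs_le.mp hτ).2
    linarith
  have hM0 : 0 ≤ M := by positivity
  nlinarith

lemma pb_eq_one (g b : SL(2, ℝ)) (h : g * b = b * g) (hb : (b 0 0 + b 1 1) ^ 2 ≠ 4)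
    (htr : g 0 0 + g 1 1 = 2) : g = 1 := by
  obtain ⟨h1, h2, h3⟩ := pb_sq_entries g b h
  have hΔ0 : (b 0 0 + b 1 1) ^ 2 - 4 ≠ 0 := sub_ne_zero.mpr hb
  rw [htr] at h1 h2 h3
  have e : ((2 : ℝ) ^ 2 - 4) = 0 := by norm_num
  rw [e, mul_zero] at h1 h2 h3
  have k1 : g 0 0 - g 1 1 = 0 := by
    have := (mul_eq_zero.mp h1).resolve_right hΔ0
    exact pow_eq_zero_iff (two_ne_zero) |>.mp this
  have k2 : g 0 1 = 0 := by
    have := (mul_eq_zero.mp h2).resolve_right hΔ0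
    exact pow_eq_zero_iff (two_ne_zero) |>.mp this
  have k3 : g 1 0 = 0 := by
    have := (mul_eq_zero.mp h3).resolve_right hΔ0
    exact pow_eq_zero_iff (two_ne_zero) |>.mp this
  apply ext_entries
  · simp; linarith
  · simpa using k2
  · simpa using k3
  · simp; linarith

/-- from `tr b = ± 2` to a parabolic element -/
lemma pb_final {Γ : Subgroup SL(2, ℝ)} (b : SL(2, ℝ)) (hbΓ : b ∈ Γ) (hb1 : b ≠ 1) (hb2 : b ≠ -1)
    (hb : (b 0 0 + b 1 1) ^ 2 = 4) : ∃ p ∈ Γ, p ≠ 1 ∧ p 0 0 + p 1 1 = 2 := by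
  have hf : (b 0 0 + b 1 1 - 2) * (b 0 0 + b 1 1 + 2) = 0 := by linear_combination hb
  rcases mul_eq_zero.mp hf with h | h
  · exact ⟨b, hbΓ, hb1, by linarith⟩
  · refine ⟨b * b, Γ.mul_mem hbΓ hbΓ, fun hbb => hb2 ?_, ?_⟩
    · have e : ∀ i j : Fin 2, (b * b) i j = (1 : SL(2, ℝ)) i j := fun i j => by rw [hbb]
      have e00 := e 0 0
      have e01 := e 0 1
      have e10 := e 1 0
      have e11 := e 1 1
      simp only [mul_apply', Matrix.SpecialLinearGroup.coe_one, Matrix.one_apply_eq, ne_eq,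
        zero_ne_one, not_false_eq_true, Matrix.one_apply_ne, one_ne_zero] at e00 e01 e10 e11
      have hs : b 0 0 + b 1 1 = -2 := by linarith
      have k1 : b 0 1 = 0 := by
        have : b 0 1 * (-2) = 0 := by rw [← hs]; linarith
        linarith
      have k2 : b 1 0 = 0 := by
        have : b 1 0 * (-2) = 0 := by rw [← hs]; linarith
        linarith
      rw [k1] at e00
      rw [k2] at e11
      have k3 : (b 0 0 - b 1 1) * (-2) = 0 := by rw [← hs]; linear_combination e00 - e11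
      apply ext_entries
      · simp; linarith
      · simpa using k1
      · simpa using k2
      · simp; linarith
    · have hdet := det_eq b
      simp only [mul_apply']
      linear_combination hb - 2 * hdet

/-- pigeonhole -/
lemma pb_pigeon {α : Type*} (S : Set α) (hS : S.Finite) (Q : α → ℕ → Prop)
    (hanti : ∀ b j k, j ≤ k → Q b k → Q b j) (h : ∀ k, ∃ b ∈ S, Q b k) :
    ∃ b ∈ S, ∀ k, Q b k := by
  by_contra hcon
  push Not at hcon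
  choose! κ hκ using hcon
  obtain ⟨b, hb, hQ⟩ := h (hS.toFinset.sup κ)
  exact hκ b hb (hanti b _ _ (Finset.le_sup (f := κ) (hS.mem_toFinset.mpr hb)) hQ)

/-- a finite set has a gap -/
lemma pb_gap {α : Type*} (T : Set α) (hT : T.Finite) (f : α → ℝ) (hf : ∀ a, 0 ≤ f a) :
    ∃ δ : ℝ, 0 < δ ∧ ∀ a ∈ T, f a < δ → f a = 0 := by
  by_contra hcon
  push Not at hcon
  obtain ⟨a, haT, ha⟩ := pb_pigeon T hT (fun a k => f a < 1 / ((k : ℝ) + 1) ∧ f a ≠ 0)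
    (fun b j k hjk hQ => ⟨hQ.1.trans_le (by
      have : (j : ℝ) ≤ k := by exact_mod_cast hjk
      exact one_div_le_one_div_of_le (by positivity) (by linarith)), hQ.2⟩)
    (fun k => by
      obtain ⟨a, h1, h2, h3⟩ := hcon (1 / ((k : ℝ) + 1)) (by positivity)
      exact ⟨a, h1, h2, h3⟩)
  have hpos : 0 < f a := lt_of_le_of_ne (hf a) (Ne.symm (ha 0).2)
  obtain ⟨k, hk⟩ := exists_nat_one_div_lt hpos
  exact absurd (ha k).1 (by linarith)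

/-! ### the clopen argument -/

lemma pb_toSL2R_nrm (z z' : ℍ) :
    nrm (z.toSL2R⁻¹ * z'.toSL2R) ^ 2 = 2 * Real.cosh (dist z z') := by
  rw [pb_nrm_sq_cosh, mul_smul, toSL2R_smul_I]
  congr 2
  have h := dist_smul z.toSL2R⁻¹ (z.toSL2R • I) z'
  rw [inv_smul_smul, toSL2R_smul_I] at h
  exact h

lemma pb_toSL2R_I : (I : ℍ).toSL2R = 1 := by
  apply ext_entries <;> simp

lemma pb_move (z z' : ℍ) (b : SL(2, ℝ)) :
    d1 (z'.toSL2R⁻¹ * b * z'.toSL2R) ≤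
      2 * Real.cosh (dist z z') * d1 (z.toSL2R⁻¹ * b * z.toSL2R) := by
  have h := pb_d1_conj (z.toSL2R⁻¹ * z'.toSL2R) (z.toSL2R⁻¹ * b * z.toSL2R)
  rw [pb_toSL2R_nrm] at h
  convert h using 2
  group

lemma pb_clopen (A : Set SL(2, ℝ)) (C r : ℝ) (hC : C = 2 * Real.cosh 1)
    (z₀ : ℍ) (b₀ : SL(2, ℝ)) (hb₀ : b₀ ∈ A) (h₀ : d1 (z₀.toSL2R⁻¹ * b₀ * z₀.toSL2R) < r)
    (hI : ∀ b ∈ A, r ≤ d1 b) :
    ∃ z : ℍ, (∃ b ∈ A, d1 (z.toSL2R⁻¹ * b * z.toSL2R) < C * r) ∧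
      ∀ b ∈ A, r ≤ d1 (z.toSL2R⁻¹ * b * z.toSL2R) := by
  by_contra hcon
  push Not at hcon
  have hCpos : 0 < C := by
    rw [hC]
    have := Real.cosh_pos 1
    linarith
  have hmv : ∀ z z' : ℍ, dist z z' < 1 → ∀ b, d1 (z.toSL2R⁻¹ * b * z.toSL2R) < r →
      d1 (z'.toSL2R⁻¹ * b * z'.toSL2R) < C * r := by
    intro z z' hd b hb
    have h1 := pb_move z z' b
    have h2 : Real.cosh (dist z z') ≤ Real.cosh 1 := by
      rw [Real.cosh_le_cosh, abs_of_nonneg dist_nonneg, abs_one]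
      exact hd.le
    have h3 := pb_d1_nonneg (z.toSL2R⁻¹ * b * z.toSL2R)
    calc d1 (z'.toSL2R⁻¹ * b * z'.toSL2R)
        ≤ 2 * Real.cosh (dist z z') * d1 (z.toSL2R⁻¹ * b * z.toSL2R) := h1
      _ ≤ C * d1 (z.toSL2R⁻¹ * b * z.toSL2R) := by
          refine mul_le_mul_of_nonneg_right ?_ h3
          rw [hC]; linarith
      _ < C * r := mul_lt_mul_of_pos_left hb hCpos
  set S : Set ℍ := {z | ∃ b ∈ A, d1 (z.toSL2R⁻¹ * b * z.toSL2R) < r} with hS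
  have hstep : ∀ z z' : ℍ, dist z z' < 1 → z ∈ S → z' ∈ S := by
    intro z z' hd hz
    obtain ⟨b, hb, hbr⟩ := hz
    exact hcon z' ⟨b, hb, hmv z z' hd b hbr⟩
  have hclopen : IsClopen S := by
    constructor
    · rw [← isOpen_compl_iff, Metric.isOpen_iff]
      intro z hz
      refine ⟨1, one_pos, fun z' hz' hz'' => hz ?_⟩
      exact hstep z' z (Metric.mem_ball.mp hz') hz''
    · rw [Metric.isOpen_iff]
      intro z hz
      refine ⟨1, one_pos, fun z' hz' => hstep z z' ?_ hz⟩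
      rw [dist_comm]
      exact Metric.mem_ball.mp hz'
  have huniv : S = Set.univ := IsClopen.eq_univ hclopen ⟨z₀, b₀, hb₀, h₀⟩
  have hmem : (I : ℍ) ∈ S := by rw [huniv]; trivial
  obtain ⟨b, hb, hbr⟩ := hmem
  rw [pb_toSL2R_I, inv_one, one_mul, mul_one] at hbr
  exact absurd (hI b hb) (by linarith)

/-- conjugates of discrete groups are discrete -/
lemma pb_disc_conj {ε : ℝ} {Γ : Subgroup SL(2, ℝ)} (hd : Disc ε Γ) (h : SL(2, ℝ)) :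
    ∃ ε' : ℝ, Disc ε' (Γ.comap (MulAut.conj h).toMonoidHom) := by
  have hpos : 0 < nrm h := nrm_pos h
  refine ⟨ε / (4 * nrm h ^ 2), by have := hd.1; positivity, fun g hg hsmall => ?_⟩
  have hg' : h * g * h⁻¹ ∈ Γ := hg
  set e : ℝ := ε / (4 * nrm h ^ 2) with he
  have hd1 : d1 g ≤ 2 * e := by
    have e00 := hsmall 0 0
    have e01 := hsmall 0 1
    have e10 := hsmall 1 0
    have e11 := hsmall 1 1
    simp only [Matrix.SpecialLinearGroup.coe_one, Matrix.one_apply_eq, ne_eq, zero_ne_one,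
      not_false_eq_true, Matrix.one_apply_ne, one_ne_zero, sub_zero] at e00 e01 e10 e11
    have hepos : 0 < e := lt_of_le_of_lt (abs_nonneg _) e00
    apply le_of_sq_le_sq' _ (by linarith)
    rw [pb_d1_sq]
    have s00 := sq_le_sq' (abs_lt.mp e00).1.le (abs_lt.mp e00).2.le
    have s01 := sq_le_sq' (abs_lt.mp e01).1.le (abs_lt.mp e01).2.le
    have s10 := sq_le_sq' (abs_lt.mp e10).1.le (abs_lt.mp e10).2.le
    have s11 := sq_le_sq' (abs_lt.mp e11).1.le (abs_lt.mp e11).2.le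
    nlinarith
  have h1 : d1 (h * g * h⁻¹) < ε := by
    have h2 := pb_d1_conj h⁻¹ g
    rw [inv_inv, nrm_inv] at h2
    have h3 : nrm h ^ 2 * (2 * e) = ε / 2 := by
      rw [he]; field_simp; ring
    have h4 : nrm h ^ 2 * d1 g ≤ nrm h ^ 2 * (2 * e) :=
      mul_le_mul_of_nonneg_left hd1 (by positivity)
    have := hd.1
    linarith
  have h5 : h * g * h⁻¹ = 1 := hd.2 _ hg' fun i j => (pb_entry_le _ i j).trans_lt h1
  have h6 : g = h⁻¹ * (h * g * h⁻¹) * h := by group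
  rw [h6, h5]
  group

/-! ### the theorem, with its black boxes as hypotheses -/

theorem exists_parabolic_of
    (hcount : ∀ ε : ℝ, 0 < ε → ∃ C : ℝ, 0 < C ∧ ∀ Γ : Subgroup SL(2, ℝ), Disc ε Γ →
      ∀ R : ℝ, 1 ≤ R → {g : SL(2, ℝ) | g ∈ Γ ∧ nrm g ≤ R}.Finite ∧
      (({g : SL(2, ℝ) | g ∈ Γ ∧ nrm g ≤ R}.ncard : ℕ) : ℝ) ≤ C * R ^ 8)
    (hsmall : ∀ {ε : ℝ} {Γ : Subgroup SL(2, ℝ)} (_ : Disc ε Γ)
      (F : Set ℍ) (_ : MeasurableSet F) (_ : volume F < ∞)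
      (_ : ∀ z : ℍ, ∃ g ∈ Γ, g • z ∈ F),
      ∀ r : ℝ, 0 < r → ∃ R : ℝ, ∀ h : SL(2, ℝ), (∀ g ∈ Γ, R < dist (h • I) (g • I)) →
        ∃ g ∈ Γ, g ≠ 1 ∧ d1 (h⁻¹ * g * h) < r)
    (hcomm : ∃ r₀ : ℝ, 0 < r₀ ∧ ∀ (ε : ℝ) (Γ : Subgroup SL(2, ℝ)), Disc ε Γ →
      ∀ a ∈ Γ, ∀ b ∈ Γ, d1 a < r₀ → d1 b < r₀ → a * b = b * a)
    (hcent : ∀ (a b c : SL(2, ℝ)) (_ : b ≠ 1) (_ : b ≠ -1)
      (_ : a * b = b * a) (_ : c * b = b * c), a * c = c * a)
    {ε : ℝ} {Γ : Subgroup SL(2, ℝ)} (hd : Disc ε Γ)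
    (F : Set ℍ) (hF : MeasurableSet F) (hvol : volume F < ∞) (hcov : ∀ z : ℍ, ∃ g ∈ Γ, g • z ∈ F)
    (hnc : ∀ R : ℝ, ∃ z : ℍ, ∀ g ∈ Γ, R < dist z (g • I)) :
    ∃ p ∈ Γ, p ≠ 1 ∧ p 0 0 + p 1 1 = 2 := by
  obtain ⟨r₀, hr₀, hcomm⟩ := hcomm
  obtain ⟨Cc, -, hcount⟩ := hcount ε hd.1
  set C : ℝ := 2 * Real.cosh 1 with hC
  have hC1 : 1 ≤ C := by
    have := Real.one_le_cosh 1
    rw [hC]; linarith
  have hCpos : 0 < C := by linarith
  -- the scale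
  set r : ℝ := min ε (min r₀ 1 / C) with hr
  have hrε : r ≤ ε := min_le_left _ _
  have hCr : C * r ≤ min r₀ 1 := by
    have h1 : r ≤ min r₀ 1 / C := min_le_right _ _
    rwa [le_div_iff₀ hCpos, mul_comm] at h1
  have hCr0 : C * r ≤ r₀ := hCr.trans (min_le_left _ _)
  have hCr1 : C * r ≤ 1 := hCr.trans (min_le_right _ _)
  have hrpos : 0 < r := lt_min hd.1 (div_pos (lt_min hr₀ one_pos) hCpos)
  have hrCr : r ≤ C * r := by nlinarith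
  obtain ⟨R, hR⟩ := hsmall hd F hF hvol hcov r hrpos
  set N : ℝ := max 1 (2 * Real.cosh R * 3) with hN
  -- the main step
  have hmain : ∀ k : ℕ, ∃ b ∈ {b : SL(2, ℝ) | b ∈ Γ ∧ nrm b ≤ N},
      b ≠ 1 ∧ b ≠ -1 ∧ ∃ g ∈ Γ, g ≠ 1 ∧ g * b = b * g ∧
        |g 0 0 + g 1 1 - 2| < 1 / ((k : ℝ) + 1) := by
    intro k
    have hkpos : (0 : ℝ) < 1 / ((k : ℝ) + 1) := by positivity
    obtain ⟨Rk, hRk⟩ := hsmall hd F hF hvol hcov (min r (1 / ((k : ℝ) + 1) / 2))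
      (lt_min hrpos (by positivity))
    obtain ⟨z, hz⟩ := hnc Rk
    obtain ⟨g, hgΓ, hg1, hgd⟩ := hRk z.toSL2R (by rw [toSL2R_smul_I]; exact hz)
    have hgr : d1 (z.toSL2R⁻¹ * g * z.toSL2R) < r := hgd.trans_le (min_le_left _ _)
    have hgk : d1 (z.toSL2R⁻¹ * g * z.toSL2R) < 1 / ((k : ℝ) + 1) / 2 :=
      hgd.trans_le (min_le_right _ _)
    -- the trace
    have htr : |g 0 0 + g 1 1 - 2| < 1 / ((k : ℝ) + 1) := by
      have h1 := pb_trace_le (z.toSL2R⁻¹ * g * z.toSL2R)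
      rw [pb_trace_conj] at h1
      linarith
    -- the clopen argument
    set A : Set SL(2, ℝ) := {b | b ∈ Γ ∧ b ≠ 1 ∧ b * g = g * b} with hA
    have hI : ∀ b ∈ A, r ≤ d1 b := by
      intro b hb
      by_contra hlt
      push Not at hlt
      exact hb.2.1 (hd.2 b hb.1 fun i j => (pb_entry_le b i j).trans_lt (hlt.trans_le hrε))
    obtain ⟨z', ⟨b, hbA, hbd⟩, hlow⟩ := pb_clopen A C r hC z g ⟨hgΓ, hg1, rfl⟩ hgr hI
    obtain ⟨hbΓ, hb1, hbg⟩ := hbA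
    have hb2 : b ≠ -1 := by
      rintro rfl
      have h1 : (z'.toSL2R⁻¹ * (-1) * z'.toSL2R : SL(2, ℝ)) = -1 := by
        rw [mul_neg, mul_one, neg_mul, inv_mul_cancel]
      rw [h1] at hbd
      have h2 := pb_entry_le (-1 : SL(2, ℝ)) 0 0
      simp only [Matrix.SpecialLinearGroup.coe_neg, Matrix.SpecialLinearGroup.coe_one,
        Matrix.neg_apply, Matrix.one_apply_eq] at h2
      norm_num at h2
      linarith
    -- the point is close to the orbit of `I`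
    obtain ⟨γ, hγΓ, hγ⟩ : ∃ γ ∈ Γ, dist z' (γ • I) ≤ R := by
      by_contra hcon
      push Not at hcon
      obtain ⟨a, haΓ, ha1, had⟩ := hR z'.toSL2R (by rw [toSL2R_smul_I]; exact hcon)
      obtain ⟨ε', hd'⟩ := pb_disc_conj hd z'.toSL2R
      have hmem : ∀ x ∈ Γ, z'.toSL2R⁻¹ * x * z'.toSL2R ∈
          Γ.comap (MulAut.conj z'.toSL2R).toMonoidHom := by
        intro x hx
        show z'.toSL2R * (z'.toSL2R⁻¹ * x * z'.toSL2R) * z'.toSL2R⁻¹ ∈ Γ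
        have h1 : z'.toSL2R * (z'.toSL2R⁻¹ * x * z'.toSL2R) * z'.toSL2R⁻¹ = x := by group
        rwa [h1]
      have h2 := hcomm ε' _ hd' _ (hmem a haΓ) _ (hmem b hbΓ) (had.trans_le (hrCr.trans hCr0))
        (hbd.trans_le hCr0)
      have h3 : a * b = b * a := by
        have e1 : a * b = z'.toSL2R * ((z'.toSL2R⁻¹ * a * z'.toSL2R) *
          (z'.toSL2R⁻¹ * b * z'.toSL2R)) * z'.toSL2R⁻¹ := by group
        have e2 : b * a = z'.toSL2R * ((z'.toSL2R⁻¹ * b * z'.toSL2R) *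
          (z'.toSL2R⁻¹ * a * z'.toSL2R)) * z'.toSL2R⁻¹ := by group
        rw [e1, e2, h2]
      have h4 := hcent a b g hb1 hb2 h3 hbg.symm
      exact absurd (hlow a ⟨haΓ, ha1, h4⟩) (by linarith)
    -- translate
    refine ⟨γ⁻¹ * b * γ, ⟨Γ.mul_mem (Γ.mul_mem (Γ.inv_mem hγΓ) hbΓ) hγΓ, ?_⟩, ?_, ?_,
      γ⁻¹ * g * γ, Γ.mul_mem (Γ.mul_mem (Γ.inv_mem hγΓ) hgΓ) hγΓ, ?_, ?_, ?_⟩
    · set c : SL(2, ℝ) := γ⁻¹ * z'.toSL2R with hc
      have hcn : nrm c ^ 2 ≤ 2 * Real.cosh R := by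
        have h1 : nrm c ^ 2 = 2 * Real.cosh (dist (γ • I) z') := by
          rw [pb_nrm_sq_cosh, hc, mul_smul, toSL2R_smul_I]
          congr 2
          have h := dist_smul γ⁻¹ (γ • I) z'
          rw [inv_smul_smul] at h
          exact h
        rw [h1]
        have h2 : Real.cosh (dist (γ • I) z') ≤ Real.cosh R := by
          have hR0 : 0 ≤ R := dist_nonneg.trans hγ
          rw [Real.cosh_le_cosh, abs_of_nonneg dist_nonneg, abs_of_nonneg hR0, dist_comm]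
          exact hγ
        linarith
      have h3 : γ⁻¹ * b * γ = c * (z'.toSL2R⁻¹ * b * z'.toSL2R) * c⁻¹ := by
        rw [hc]; group
      have h4 : nrm (z'.toSL2R⁻¹ * b * z'.toSL2R) ≤ 3 :=
        (pb_nrm_le _).trans (by linarith)
      have h5 : nrm (γ⁻¹ * b * γ) ≤ nrm c ^ 2 * 3 := by
        rw [h3]
        refine (nrm_mul_le _ _).trans ?_
        rw [nrm_inv]
        have h6 := nrm_mul_le c (z'.toSL2R⁻¹ * b * z'.toSL2R)
        have h7 : nrm c * nrm (z'.toSL2R⁻¹ * b * z'.toSL2R) ≤ nrm c * 3 :=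
          mul_le_mul_of_nonneg_left h4 (nrm_nonneg c)
        calc nrm (c * (z'.toSL2R⁻¹ * b * z'.toSL2R)) * nrm c ≤ (nrm c * 3) * nrm c :=
              mul_le_mul_of_nonneg_right (h6.trans h7) (nrm_nonneg c)
          _ = nrm c ^ 2 * 3 := by ring
      exact h5.trans ((mul_le_mul_of_nonneg_right hcn (by norm_num)).trans (le_max_right _ _))
    · intro h
      apply hb1
      have h1 : b = γ * (γ⁻¹ * b * γ) * γ⁻¹ := by group
      rw [h1, h]; group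
    · intro h
      apply hb2
      have h1 : b = γ * (γ⁻¹ * b * γ) * γ⁻¹ := by group
      rw [h1, h, mul_neg, mul_one, neg_mul, mul_inv_cancel]
    · intro h
      apply hg1
      have h1 : g = γ * (γ⁻¹ * g * γ) * γ⁻¹ := by group
      rw [h1, h]; group
    · have e1 : γ⁻¹ * g * γ * (γ⁻¹ * b * γ) = γ⁻¹ * (g * b) * γ := by group
      have e2 : γ⁻¹ * b * γ * (γ⁻¹ * g * γ) = γ⁻¹ * (b * g) * γ := by group
      rw [e1, e2, hbg]
    · rw [pb_trace_conj]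
      exact htr
  -- pigeonhole
  have hfin : {b : SL(2, ℝ) | b ∈ Γ ∧ nrm b ≤ N}.Finite :=
    (hcount Γ hd N (le_max_left _ _)).1
  obtain ⟨b, hbS, hball⟩ := pb_pigeon _ hfin
    (fun b k => b ≠ 1 ∧ b ≠ -1 ∧ ∃ g ∈ Γ, g ≠ 1 ∧ g * b = b * g ∧
        |g 0 0 + g 1 1 - 2| < 1 / ((k : ℝ) + 1))
    (by
      rintro b j k hjk ⟨h1, h2, g, h3, h4, h5, h6⟩
      refine ⟨h1, h2, g, h3, h4, h5, h6.trans_le ?_⟩
      have : (j : ℝ) ≤ k := by exact_mod_cast hjk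
      exact one_div_le_one_div_of_le (by positivity) (by linarith))
    hmain
  have hb1 : b ≠ 1 := (hball 0).1
  have hb2 : b ≠ -1 := (hball 0).2.1
  by_cases htb : (b 0 0 + b 1 1) ^ 2 = 4
  · exact pb_final b hbS.1 hb1 hb2 htb
  · exfalso
    obtain ⟨N', hN'⟩ := pb_bounded b htb
    have hfin' : {g : SL(2, ℝ) | g ∈ Γ ∧ nrm g ≤ max 1 N'}.Finite :=
      (hcount Γ hd (max 1 N') (le_max_left _ _)).1
    obtain ⟨δ, hδ, hgap⟩ := pb_gap _ hfin' (fun g : SL(2, ℝ) => |g 0 0 + g 1 1 - 2|)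
      (fun _ => abs_nonneg _)
    obtain ⟨k, hk⟩ := exists_nat_one_div_lt hδ
    obtain ⟨-, -, g, hgΓ, hg1, hgb, hgk⟩ := hball k
    have h1 : |g 0 0 + g 1 1 - 2| < 1 := hgk.trans_le (by
      rw [div_le_one (by positivity)]
      have : (0 : ℝ) ≤ k := Nat.cast_nonneg k
      linarith)
    have h2 : |g 0 0 + g 1 1| ≤ 3 := by
      rw [abs_lt] at h1
      rw [abs_le]
      constructor <;> linarith [h1.1, h1.2]
    have h3 := hgap g ⟨hgΓ, (hN' g hgb h2).trans (le_max_right _ _)⟩ (hgk.trans hk)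
    exact hg1 (pb_eq_one g b hgb htb (by linarith [abs_eq_zero.mp h3]))

end

end Pool.Agent.Helper97.Fuchs
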